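import Mathlib
import Pool.Agent.H5.EG.Spec2

/-! # Sup bound of the derivatives of `W` -/

set_option autoImplicit false

namespace Pool.Agent.H922.EG

open Pool.Agent.H5.EG

theorem wsup (h1 : S_cauchy) (h2 : S_maj) : S_Wsup := by
  intro B
  refine ⟨B.factorial + 3 * B + 3, ?_⟩
  intro Λ hΛ W X hX hW l hl x hx
  obtain ⟨hR, hG⟩ := hW
  have hX2 : (2 : ℝ) ≤ X := by exact_mod_cast hX
  have hX0 : (0 : ℝ) < X := by linarith
  obtain ⟨S, hS⟩ : ∃ S : ℝ, S = 2 * (X : ℝ) ^ 2 := ⟨_, rfl⟩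
  have hXsq : (4 : ℝ) ≤ (X : ℝ) ^ 2 := by nlinarith
  have hS8 : 8 ≤ S := by rw [hS]; linarith
  have hS0 : 0 < S := by linarith
  obtain ⟨R, hRd⟩ : ∃ R : ℝ, R = 1 - 1 / S := ⟨_, rfl⟩
  have hSi : 1 / S ≤ 1 / 8 := one_div_le_one_div_of_le (by norm_num) hS8
  have hSi0 : 0 < 1 / S := by positivity
  have hR0 : 0 < R := by rw [hRd]; linarith
  have hR1 : R < 1 := by rw [hRd]; linarith
  have hXS : 1 / (X : ℝ) ^ 2 = 2 * (1 / S) := by
    rw [hS]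
    field_simp
  obtain ⟨ρ, hρ⟩ : ∃ ρ : ℝ, ρ = 1 - 1 / (X : ℝ) ^ 2 := ⟨_, rfl⟩
  have hρ0 : 0 ≤ ρ := by rw [hρ, hXS]; linarith
  have hρR : ρ < R := by rw [hρ, hXS, hRd]; linarith
  -- the coefficients
  have hc : ∀ n : ℕ, ‖PowerSeries.coeff n (toC W)‖ * R ^ n ≤ S ^ Λ := by
    refine h1 (toC W) R (S ^ Λ) hR hR0 hR1 ?_
    intro y hy
    exact hG S (by linarith) y (by rw [hy, hRd])
  have hmaj : Maj (S ^ Λ) l R (D^[l] (toC W)) := by
    intro n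
    rw [coeff_D_iter, norm_mul, norm_pow, Complex.norm_natCast]
    calc (n : ℝ) ^ l * ‖PowerSeries.coeff n (toC W)‖ * R ^ n
        = (‖PowerSeries.coeff n (toC W)‖ * R ^ n) * (n : ℝ) ^ l := by ring
      _ ≤ S ^ Λ * ((n : ℝ) + 1) ^ l := by
          apply mul_le_mul (hc n) _ (by positivity) (by positivity)
          exact pow_le_pow_left₀ (Nat.cast_nonneg n) (by linarith) l
  have hev := h2.2 (S ^ Λ) R ρ l (D^[l] (toC W)) x (by positivity) hρ0 hρR hmaj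
    (by rw [hρ]; exact hx)
  refine hev.trans ?_
  have hq : 1 / S ≤ 1 - ρ / R := by
    have e : 1 - ρ / R = (R - ρ) / R := by
      rw [sub_div, div_self hR0.ne']
    have e2 : R - ρ = 1 / S := by rw [hRd, hρ, hXS]; ring
    rw [e, e2, le_div_iff₀ hR0]
    calc 1 / S * R ≤ 1 / S * 1 := mul_le_mul_of_nonneg_left hR1.le hSi0.le
      _ = 1 / S := mul_one _
  have hq2 : (1 / S) ^ (l + 1) ≤ (1 - ρ / R) ^ (l + 1) := pow_le_pow_left₀ hSi0.le hq _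
  have hSX : S ≤ (X : ℝ) ^ 3 := by
    rw [hS]
    have : 2 * (X : ℝ) ^ 2 ≤ X * (X : ℝ) ^ 2 := mul_le_mul_of_nonneg_right hX2 (by positivity)
    calc 2 * (X : ℝ) ^ 2 ≤ X * (X : ℝ) ^ 2 := this
      _ = (X : ℝ) ^ 3 := by ring
  have hX1 : (1 : ℝ) ≤ X := by linarith
  have hfac : ((l.factorial : ℕ) : ℝ) ≤ (X : ℝ) ^ B.factorial := by
    have h3 : l.factorial ≤ 2 ^ B.factorial :=
      (Nat.factorial_le hl).trans (Nat.lt_two_pow_self).le
    calc ((l.factorial : ℕ) : ℝ) ≤ ((2 ^ B.factorial : ℕ) : ℝ) := by exact_mod_cast h3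
      _ = (2 : ℝ) ^ B.factorial := by push_cast; rfl
      _ ≤ (X : ℝ) ^ B.factorial := pow_le_pow_left₀ (by norm_num) hX2 _
  calc S ^ Λ * (l.factorial : ℝ) / (1 - ρ / R) ^ (l + 1)
      ≤ S ^ Λ * (l.factorial : ℝ) / (1 / S) ^ (l + 1) :=
        div_le_div_of_nonneg_left (by positivity) (by positivity) hq2
    _ = (l.factorial : ℝ) * S ^ (Λ + l + 1) := by
        rw [one_div, inv_pow, div_inv_eq_mul, add_assoc, pow_add]
        ring
    _ ≤ (X : ℝ) ^ B.factorial * ((X : ℝ) ^ 3) ^ (Λ + l + 1) :=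
        mul_le_mul hfac (pow_le_pow_left₀ hS0.le hSX _) (by positivity) (by positivity)
    _ = (X : ℝ) ^ (B.factorial + 3 * (Λ + l + 1)) := by rw [← pow_mul, ← pow_add]
    _ ≤ (X : ℝ) ^ (5 * Λ) := pow_le_pow_right₀ hX1 (by omega)

end Pool.Agent.H922.EG
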